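import Pool.Agent.helper88.RQ2.Spec

/-!
RQ row MST: strictness of the first family of linear bounds for connected matroids.
-/

open Set Matroid RadonMin

set_option autoImplicit false

namespace RadonQ2

theorem MST_proof (hMS3 : MS3_stmt) (hAST : AST_stmt) : MST_stmt := by
  intro α M _ hs hg hc hr m hm
  have hEfin : M.E.Finite := M.ground_finite
  induction m, hm using Nat.le_induction with
  | base => exact hMS3 α M hs hg hc hr
  | succ m hm3 ihm =>
    have c3 := choose_three_succ (m + 1)
    have c2 := choose_two_succ m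
    have hm2 := two_mul_choose_two m
    have hm2' := two_mul_choose_two (m + 1)
    unfold TT at ihm ⊢
    by_cases hsmall : 2 * M.E.ncard ≤ (m + 1) * rk M M.E
    · -- reduce to `m`
      have h1 : (2 : ℤ) * M.E.ncard ≤ (m + 1) * rk M M.E := by exact_mod_cast hsmall
      have h2 : (m : ℤ) * (2 * M.E.ncard) ≤ m * ((m + 1) * rk M M.E) :=
        mul_le_mul_of_nonneg_left h1 (by positivity)
      rw [c3]
      push_cast at hm2' ⊢
      nlinarith
    · push Not at hsmall
      have hn4 : 4 ≤ M.E.ncard := hr.trans (rk_le_ncard le_rfl)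
      obtain ⟨X, hX, hX2⟩ := exists_subset_card_eq (s := M.E) (n := 2) (by omega)
      obtain ⟨e, g, heg, hXeg⟩ := ncard_eq_two.mp hX2
      have heE : e ∈ M.E := hX (by rw [hXeg]; simp)
      have hgE : g ∈ M.E := hX (by rw [hXeg]; simp)
      obtain ⟨C0, hC0, he0, -⟩ := hc.exists_common_circuit heE hgE heg
      have hrk := rk_sdiff_singleton_of_circuit hC0 he0
      have h1 := T_bound (M := M ＼ {e}) (hs.delete _) (hg.delete _) (m + 1)
      rw [delete_ground, ncard_sdiff_singleton_of_mem heE, rk_delete M le_rfl, hrk] at h1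
      have h2 := cc_eq_delete_add_ce M e
      have h3 := ce_lower hs hc heE ((m + 1) / 2)
      have h4 : ((m + 1).choose 2 : ℤ) < (((m + 1) / 2 : ℕ) : ℤ) * ((M.E.ncard : ℤ) - 1)
          - (((m + 1) / 2 + 1).choose 2 : ℤ) * ((rk M M.E : ℤ) - 1) := by
        apply hAST ((m + 1 : ℕ) : ℤ) ((M.E.ncard : ℤ) - 1) ((rk M M.E : ℤ) - 1)
          (((m + 1) / 2 : ℕ) : ℤ)
        · have : 2 ≤ (m + 1) / 2 := by omega
          exact_mod_cast this
        · have : (4 : ℤ) ≤ rk M M.E := by exact_mod_cast hr
          linarith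
        · have := Nat.div_add_mod (m + 1) 2
          have h5 := Nat.mod_lt (m + 1) (show 2 > 0 by norm_num)
          omega
        · exact two_choose _
        · exact two_mul_choose_two (m + 1)
        · have : (((m + 1) * rk M M.E : ℕ) : ℤ) < ((2 * M.E.ncard : ℕ) : ℤ) := by
            exact_mod_cast hsmall
          push_cast at this ⊢
          linarith
      have h5 : (cc M : ℤ) = cc (M ＼ {e}) + ce M e := by exact_mod_cast h2
      have h6 : ((M.E.ncard - 1 : ℕ) : ℤ) = (M.E.ncard : ℤ) - 1 := by
        push_cast [Nat.cast_sub (show 1 ≤ M.E.ncard by omega)]; ring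
      rw [h6] at h1
      rw [h5]
      linarith

end RadonQ2
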